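import Pool.Agent.H70.Tame5

/-!
# Every reduced projective hypersurface is tame

Let `n = k + 1` and `S = ℂ[x_0, ..., x_n]`.  For every reduced hypersurface `V : f = 0` in
projective `n`-space there are a minimal set of generators of the module `D_0(f)` of Jacobian
syzygies and `n - 1 = k` of its elements with respect to which `V` is tame.  This answers Q1 in the
negative.
-/

open MvPolynomial

namespace Pool.Agent.Results.MP_0a8f3f_ag.AlwaysTame

variable {k : ℕ}

/-- The polynomial ring `S = ℂ[x_0, ..., x_n]`, where `n = k + 1`. -/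
abbrev Poly (k : ℕ) : Type := MvPolynomial (Fin (k+2)) ℂ

/-- Vectors `(a_0, ..., a_n)` of polynomials, where `n = k + 1`. -/
abbrev Vec (k : ℕ) : Type := Fin (k+2) → Poly k

/-- `a = (a_0, ..., a_n)` is a Jacobian syzygy of `f`, that is an element of `D_0(f)`:
`∑ a_j ∂f/∂x_j = 0`. -/
def IsSyzygy (f : Poly k) (a : Vec k) : Prop := ∑ j, a j * pderiv j f = 0

/-- A vector is homogeneous if all its components are homogeneous of one common degree. -/
def IsHomogeneousVec (a : Vec k) : Prop := ∃ e : ℕ, ∀ j, (a j).IsHomogeneous e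

/-- The combination `∑ c_i ρ_i`. -/
noncomputable def comb {m : ℕ} (ρ : Fin m → Vec k) (c : Fin m → Poly k) : Vec k :=
  fun j => ∑ i, c i * ρ i j

/-- `ρ_1, ..., ρ_m` are homogeneous elements of `D_0(f)` generating it as an `S`-module. -/
def IsGeneratingFamily (f : Poly k) {m : ℕ} (ρ : Fin m → Vec k) : Prop :=
  (∀ i, IsSyzygy f (ρ i) ∧ IsHomogeneousVec (ρ i)) ∧ ∀ a, IsSyzygy f a → ∃ c, a = comb ρ c

/-- A minimal set of generators of `D_0(f)`: a family of `m` homogeneous syzygies generating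
`D_0(f)` with `m` minimal. -/
def IsMinimalGenerators (f : Poly k) {m : ℕ} (ρ : Fin m → Vec k) : Prop :=
  IsGeneratingFamily f ρ ∧ ∀ (m' : ℕ) (ρ' : Fin m' → Vec k), IsGeneratingFamily f ρ' → m ≤ m'

/-- The rows `(x_0, ..., x_n)`, `ρ̂_1, ..., ρ̂_{n-1}`, `a` of the matrix `M(ρ̂, a)`. -/
noncomputable def rowsM (ρhat : Fin k → Vec k) (a : Vec k) : Fin (k+2) → Vec k :=
  Fin.cons (fun j => X j) (Fin.snoc ρhat a : Fin (k+1) → Vec k)

/-- The determinant of the square matrix `M(ρ̂, a)` of size `n + 1 = k + 2`. -/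
noncomputable def detM (ρhat : Fin k → Vec k) (a : Vec k) : Poly k :=
  Matrix.det (Matrix.of (rowsM ρhat a))

/-- The hypersurface `f = 0` is tame with respect to `ρ̂ = (ρ̂_1, ..., ρ̂_{n-1})`:
there is `v` with `v(a) = det M(ρ̂, a) / f` for all `a` in `D_0(f)` (in particular `f` divides
`det M(ρ̂, a)`), the map `u (c_1, ..., c_{n-1}) = ∑ c_i ρ̂_i` is injective, and
the kernel of `v` on `D_0(f)` is the image of `u`. -/
def IsTame (f : Poly k) (ρhat : Fin k → Vec k) : Prop :=
  ∃ v : Vec k → Poly k, (∀ a, IsSyzygy f a → f * v a = detM ρhat a) ∧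
    Function.Injective (comb ρhat) ∧
    ∀ a, IsSyzygy f a → (v a = 0 ↔ ∃ c, a = comb ρhat c)

open Pool.Agent.H70.Tame

theorem comb_eq {m : ℕ} (ρ : Fin m → Vec k) (c : Fin m → Poly k) :
    comb ρ c = ∑ i, c i • ρ i := by
  funext j
  rw [Finset.sum_apply]
  rfl

theorem comb_eq_lc {m : ℕ} (ρ : Fin m → Vec k) :
    comb ρ = Fintype.linearCombination (Poly k) ρ := by
  funext c
  rw [comb_eq, Fintype.linearCombination_apply]

theorem mem_span_iff {m : ℕ} (ρ : Fin m → Vec k) (a : Vec k) :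
    a ∈ Submodule.span (S k) (Set.range ρ) ↔ ∃ c, a = comb ρ c := by
  rw [Submodule.mem_span_range_iff_exists_fun]
  constructor
  · rintro ⟨c, hc⟩; exact ⟨c, by rw [comb_eq, hc]⟩
  · rintro ⟨c, hc⟩; exact ⟨c, by rw [hc, comb_eq]⟩

theorem gen_iff {f : Poly k} {m : ℕ} (ρ : Fin m → Vec k) :
    IsGeneratingFamily f ρ ↔ (∀ i, IsHomogeneousVec (ρ i)) ∧
      Submodule.span (S k) (Set.range ρ) = jacSyz f := by
  constructor
  · rintro ⟨h1, h2⟩
    refine ⟨fun i => (h1 i).2, ?_⟩
    apply le_antisymm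
    · rw [Submodule.span_le]
      rintro _ ⟨i, rfl⟩
      exact (h1 i).1
    · intro a ha
      rw [mem_span_iff]
      exact h2 a ha
  · rintro ⟨h1, h2⟩
    refine ⟨fun i => ⟨?_, h1 i⟩, ?_⟩
    · have : ρ i ∈ jacSyz f := by rw [← h2]; exact Submodule.subset_span ⟨i, rfl⟩
      exact this
    · intro a ha
      rw [← mem_span_iff, h2]
      exact ha

/-- Tameness from independence in codimension at most one. -/
theorem isTame_of {f : Poly k} {d : ℕ} (hf : f.IsHomogeneous d) (hd : 1 ≤ d) (hsq : Squarefree f)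
    (σ : Fin k → Vec k) (hσ : ∀ i, IsSyzygy f (σ i)) (hI : ∀ P, Good P → Indep P σ) :
    IsTame f σ := by
  classical
  have hf0 : f ≠ 0 := hsq.ne_zero
  have hσ' : ∀ i, σ i ∈ jacSyz f := hσ
  have hdiv : ∀ a : Vec k, ∃ q, IsSyzygy f a → f * q = detM σ a := by
    intro a
    by_cases ha : IsSyzygy f a
    · obtain ⟨q, hq⟩ := dvd_det hf hd hsq hσ' (ρ := a) ha
      exact ⟨q, fun _ => hq.symm⟩
    · exact ⟨0, fun h => absurd h ha⟩
  choose v hv using hdiv
  refine ⟨v, hv, ?_, ?_⟩
  · have hli := linearIndependent_of_bot (hI ⊥ good_bot)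
    rw [comb_eq_lc]
    exact linearIndependent_iff_injective_fintypeLinearCombination.mp hli
  · intro a ha
    have h1 : v a = 0 ↔ detM σ a = 0 := by
      rw [← hv a ha]
      constructor
      · intro h; rw [h, mul_zero]
      · intro h; exact (mul_eq_zero.mp h).resolve_left hf0
    rw [h1, ← mem_span_iff]
    exact det_eq_zero_iff hf hd hsq hσ' hI (ρ := a) ha

/-- **Answer to Q1 (no such hypersurface exists).**  Let `n = k + 1` and let `f` be a squarefree
homogeneous polynomial of degree `d ≥ 1` in `n + 1 = k + 2` variables over `ℂ`.  Then there are a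
minimal set of generators of `D_0(f)` and `n - 1 = k` elements of it with respect to which the
hypersurface `f = 0` is tame. -/
theorem result (k d : ℕ) (hd : 1 ≤ d) (f : Poly k) (hf : f.IsHomogeneous d)
    (hsq : Squarefree f) :
    ∃ (m : ℕ) (ρ : Fin m → Vec k), IsMinimalGenerators f ρ ∧
      ∃ ι : Fin k ↪ Fin m, IsTame f (ρ ∘ ι) := by
  classical
  -- a minimal number of homogeneous generators
  have hex : ∃ m, ∃ ρ : Fin m → Vec k, IsGeneratingFamily f ρ := by
    obtain ⟨m, ρ, h1, h2⟩ := exists_hom_gens hf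
    exact ⟨m, ρ, (gen_iff ρ).mpr ⟨h1, h2⟩⟩
  obtain ⟨ρ, hgen⟩ := Nat.find_spec hex
  have hmin : ∀ (m' : ℕ) (ρ' : Fin m' → Vec k), IsGeneratingFamily f ρ' →
      Nat.find hex ≤ m' := by
    intro m' ρ' h1
    exact Nat.find_min' hex ⟨ρ', h1⟩
  generalize Nat.find hex = m at ρ hgen hmin
  obtain ⟨hhom, hspan⟩ := (gen_iff ρ).mp hgen
  -- sort by degree
  choose dg hdg using hhom
  have hmono := Tuple.monotone_sort dg
  set τ := Tuple.sort dg with hτ
  have hspan2 : Submodule.span (S k) (Set.range (fun i => ρ (τ i))) = jacSyz f := by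
    have h2 : Set.range (fun i => ρ (τ i)) = Set.range ρ := τ.surjective.range_comp ρ
    rw [h2]
    exact hspan
  have hrank : ∀ P : Pt k, Good P → k + 1 ≤ Module.finrank (K P) (Submodule.span (K P)
      (Set.range (fun i => ev P (ρ (τ i))))) :=
    fun P hP => rank_jacSyz hf hd hsq hspan2 hP
  have hkm : k ≤ m := by
    have h1 := hrank ⊥ good_bot
    have h2 := finrank_range_le_card (R := K (⊥ : Pt k)) (fun i => ev ⊥ (ρ (τ i)))
    rw [Fintype.card_fin] at h2
    have h3 : Module.finrank (K (⊥ : Pt k)) (Submodule.span (K (⊥ : Pt k))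
      (Set.range (fun i => ev ⊥ (ρ (τ i))))) ≤ m := h2
    omega
  obtain ⟨m₀, rfl⟩ : ∃ m₀, m = m₀ + k := ⟨m - k, by omega⟩
  obtain ⟨σ, hσhom, hσI, hσspan⟩ := assemble m₀ (fun i => ρ (τ i))
    (fun i => dg (τ i)) (fun i j => hdg (τ i) j) hmono hrank
  rw [hspan2] at hσspan
  have hσmem : ∀ j, IsSyzygy f (σ j) := by
    intro j
    have : σ j ∈ jacSyz f := by
      rw [← hσspan]
      exact Submodule.subset_span ⟨Fin.natAdd m₀ j, by rw [Fin.append_right]⟩
    exact this
  refine ⟨m₀ + k, Fin.append (fun i => ρ (τ (Fin.castAdd k i))) σ, ⟨?_, hmin⟩,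
    Fin.natAddEmb m₀, ?_⟩
  · rw [gen_iff]
    refine ⟨?_, hσspan⟩
    intro i
    refine Fin.addCases (fun i => ?_) (fun j => ?_) i
    · rw [Fin.append_left]; exact ⟨_, hdg _⟩
    · rw [Fin.append_right]; exact ⟨_, hσhom j⟩
  · have : (Fin.append (fun i => ρ (τ (Fin.castAdd k i))) σ) ∘
        (Fin.natAddEmb m₀ : Fin k ↪ Fin (m₀ + k)) = σ := by
      funext j
      show Fin.append (fun i => ρ (τ (Fin.castAdd k i))) σ (Fin.natAdd m₀ j) = σ j
      rw [Fin.append_right]
    rw [this]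
    exact isTame_of hf hd hsq σ hσmem hσI

end Pool.Agent.Results.MP_0a8f3f_ag.AlwaysTame
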